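import Mathlib

/-!
# Project MD (MP_4d33fe_pr): metric dimension of the random geometric graph in the square
-/

set_option autoImplicit false

namespace Pool.Agent.Helper42.MD

open MeasureTheory

/-- The plane. -/
abbrev Pl := EuclideanSpace ℝ (Fin 2)

/-- The square `[0, L]²`. -/
def Sq (L : ℝ) : Set Pl := {x | ∀ i, 0 ≤ x i ∧ x i ≤ L}

/-- The law of one uniformly distributed point of the square `[0, √n]²`. -/
noncomputable def unif (n : ℕ) : Measure Pl := ProbabilityTheory.cond volume (Sq (Real.sqrt n))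

/-- The law of `n` independent uniformly distributed points of the square `[0, √n]²`. -/
noncomputable def law (n : ℕ) : Measure (Fin n → Pl) := Measure.pi fun _ => unif n

/-- The geometric graph: `i` and `j` are adjacent iff `i ≠ j` and the distance of the points with
these labels is at most `r`. -/
def geo {V : Type} (r : ℝ) (X : V → Pl) : SimpleGraph V where
  Adj i j := i ≠ j ∧ dist (X i) (X j) ≤ r
  symm := ⟨fun i j h => ⟨h.1.symm, by rw [dist_comm]; exact h.2⟩⟩
  loopless := ⟨fun _ h => h.1 rfl⟩

/-- `S` is resolving: the distances to the elements of `S` determine the vertex (the distance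
between different connected components is `⊤`). -/
def Resolving {V : Type} (G : SimpleGraph V) (S : Finset V) : Prop :=
  ∀ u v, (∀ s ∈ S, G.edist s u = G.edist s v) → u = v

/-- The metric dimension. -/
noncomputable def metricDim {V : Type} (G : SimpleGraph V) : ℕ :=
  sInf {k | ∃ S : Finset V, S.card = k ∧ Resolving G S}

/-! ### auxiliary notions -/

/-- The edges of `G` inside `R`. -/
def res {V : Type} (G : SimpleGraph V) (R : Set V) : SimpleGraph V where
  Adj i j := G.Adj i j ∧ i ∈ R ∧ j ∈ R
  symm := ⟨fun _ _ h => ⟨h.1.symm, h.2.2, h.2.1⟩⟩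
  loopless := ⟨fun _ h => G.loopless.irrefl _ h.1⟩

/-- `(x, y)` straddles a level: for some `k` the point `x` is within `r` of a vertex of level at
most `k`, and `y` is not. -/
def Straddle {V : Type} (X : V → Pl) (ℓ : V → ℕ∞) (r : ℝ) (x y : Pl) : Prop :=
  ∃ k : ℕ, (∃ w, ℓ w ≤ k ∧ dist x (X w) ≤ r) ∧ ∀ w, ℓ w ≤ k → r < dist y (X w)

/-- The event for one pair `(a, b)` of labels: the two points have distance at most `ε`, and they
straddle a level of the distance from `s` in the graph on the labels in `R`. -/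
def Ev {V : Type} (r ε : ℝ) (s : V) (R : Set V) (a b : V) : Set (V → Pl) :=
  {X | dist (X a) (X b) ≤ ε ∧
    Straddle X (fun w => (res (geo r X) R).edist s w) r (X a) (X b)}

/-- the labels which do not occur in the pairs `p j`, `j ≥ i` -/
def Rest {V : Type} {K : ℕ} (p : Fin K → V × V) (i : Fin K) : Set V :=
  {v | ∀ j, i ≤ j → v ≠ (p j).1 ∧ v ≠ (p j).2}

/-- all labels in the pairs are different -/
def Dj {V : Type} {K : ℕ} (p : Fin K → V × V) : Prop :=
  (∀ i, (p i).1 ≠ (p i).2) ∧
    ∀ i j, i ≠ j → (p i).1 ≠ (p j).1 ∧ (p i).1 ≠ (p j).2 ∧ (p i).2 ≠ (p j).2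

/-- all labels in the pairs are different and different from `s` -/
def Sep {V : Type} {K : ℕ} (s : V) (p : Fin K → V × V) : Prop :=
  Dj p ∧ ∀ i, (p i).1 ≠ s ∧ (p i).2 ≠ s

/-- The levels of points at distance at most `r` differ by at most one. -/
def LevelFun {V : Type} (X : V → Pl) (r : ℝ) (ℓ : V → ℕ∞) : Prop :=
  ∀ i j, ℓ i ≠ ⊤ → ℓ j ≠ ⊤ → dist (X i) (X j) ≤ r → ℓ j ≤ ℓ i + 1

/-- The cell (of the `m × m` grid of the square of side `L`) containing a point. -/
noncomputable def cell (L : ℝ) (m : ℕ) (x : Pl) : ℤ × ℤ := (⌊x 0 * m / L⌋, ⌊x 1 * m / L⌋)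

end Pool.Agent.Helper42.MD
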