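import Mathlib
import Pool.Agent.Helper42.MD.Defs
import Pool.Agent.Helper42.MD.St.V1
import Pool.Agent.Helper42.MD.St.P1
import Pool.Agent.Helper42.MD.St.P2
import Pool.Agent.Helper42.MD.St.P3
import Pool.Agent.Helper42.MD.St.B1
import Pool.Agent.Helper42.MD.St.D3

set_option autoImplicit false

namespace Pool.Agent.Helper42.MD

open MeasureTheory

/-- the probability of the event for one tuple of pairs -/
theorem tuple_prob (n : ℕ) (hn : 1 ≤ n) (r ε : ℝ) (hε : 0 < ε) (hr : 2 * ε ≤ r)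
    (hL : 4 * r ≤ Real.sqrt n) (K : ℕ) (s : Fin n) (p : Fin K → Fin n × Fin n) (hp : Sep s p) :
    law n (⋂ i, Ev r ε s (Rest p i) (p i).1 (p i).2) ≤
      (ENNReal.ofReal (147968 * ε ^ 3 / (r * n))) ^ K := by
  have : NeZero n := ⟨by omega⟩
  have hsR : ∀ i, s ∈ Rest p i := fun i j _ => ⟨(hp.2 j).1.symm, (hp.2 j).2.symm⟩
  unfold law
  refine tuple_bound (unif n) K p hp.1 (fun i => Ev r ε s (Rest p i) (p i).1 (p i).2)
    (fun i => measurableSet_Ev r ε s (Rest p i) (p i).1 (p i).2) _ ?_ ?_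
  · intro i j hij X x y
    have h1 : (p j).1 ∉ Rest p i := fun h => (h j hij.le).1 rfl
    have h2 : (p j).2 ∉ Rest p i := fun h => (h j hij.le).2 rfl
    have hd := hp.1.2 i j hij.ne
    have hd' := hp.1.2 j i hij.ne'
    rw [Ev_update r ε s (Rest p i) (p i).1 (p i).2 (p j).2 (hsR i) h2 hd.2.1.symm hd.2.2.symm,
      Ev_update r ε s (Rest p i) (p i).1 (p i).2 (p j).1 (hsR i) h1 hd.1.symm hd'.2.1]
  · intro i X
    have h1 : (p i).1 ∉ Rest p i := fun h => (h i le_rfl).1 rfl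
    have h2 : (p i).2 ∉ Rest p i := fun h => (h i le_rfl).2 rfl
    exact pair_bound n hn r ε hε hr hL X s (Rest p i) (hsR i) (p i).1 (p i).2 h1 h2 (hp.1.1 i)

/-- some vertex separates `K` disjoint pairs of distance at most `ε` -/
def BadSep (n K : ℕ) (r ε : ℝ) : Set (Fin n → Pl) :=
  {X | ∃ (s : Fin n) (p : Fin K → Fin n × Fin n), Sep s p ∧
    (∀ i, dist (X (p i).1) (X (p i).2) ≤ ε) ∧
    ∀ i, (geo r X).edist s (p i).1 ≠ (geo r X).edist s (p i).2}

theorem badSep_bound (n : ℕ) (hn : 1 ≤ n) (r ε : ℝ) (hε : 0 < ε) (hr : 2 * ε ≤ r)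
    (hL : 4 * r ≤ Real.sqrt n) (K : ℕ) :
    law n (BadSep n K r ε) ≤
      n * (((n : ENNReal) * n) ^ K * (ENNReal.ofReal (147968 * ε ^ 3 / (r * n))) ^ K) := by
  classical
  have hsub : BadSep n K r ε ⊆ ⋃ t ∈ (Finset.univ.filter fun t : Fin n × (Fin K → Fin n × Fin n) =>
      Sep t.1 t.2), ⋂ i, Ev r ε t.1 (Rest t.2 i) (t.2 i).1 (t.2 i).2 := by
    rintro X ⟨s, p, hp, hd, hs⟩
    obtain ⟨p', hp', h'⟩ := bfs X r ε (by linarith) s K p hp hd hs
    simp only [Set.mem_iUnion]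
    exact ⟨(s, p'), Finset.mem_filter.mpr ⟨Finset.mem_univ _, hp'⟩, Set.mem_iInter.mpr h'⟩
  calc law n (BadSep n K r ε) ≤ law n (⋃ t ∈ (Finset.univ.filter
        fun t : Fin n × (Fin K → Fin n × Fin n) => Sep t.1 t.2),
        ⋂ i, Ev r ε t.1 (Rest t.2 i) (t.2 i).1 (t.2 i).2) := measure_mono hsub
    _ ≤ ∑ t ∈ (Finset.univ.filter fun t : Fin n × (Fin K → Fin n × Fin n) => Sep t.1 t.2),
        law n (⋂ i, Ev r ε t.1 (Rest t.2 i) (t.2 i).1 (t.2 i).2) := measure_biUnion_finset_le _ _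
    _ ≤ ∑ t ∈ (Finset.univ.filter fun t : Fin n × (Fin K → Fin n × Fin n) => Sep t.1 t.2),
        (ENNReal.ofReal (147968 * ε ^ 3 / (r * n))) ^ K := by
        refine Finset.sum_le_sum fun t ht => ?_
        exact tuple_prob n hn r ε hε hr hL K t.1 t.2 (Finset.mem_filter.mp ht).2
    _ ≤ ∑ t : Fin n × (Fin K → Fin n × Fin n),
        (ENNReal.ofReal (147968 * ε ^ 3 / (r * n))) ^ K :=
        Finset.sum_le_sum_of_subset (Finset.filter_subset _ _)
    _ = n * (((n : ENNReal) * n) ^ K * (ENNReal.ofReal (147968 * ε ^ 3 / (r * n))) ^ K) := by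
        rw [Finset.sum_const, Finset.card_univ, nsmul_eq_mul, Fintype.card_prod, Fintype.card_fun,
          Fintype.card_prod, Fintype.card_fin, Fintype.card_fin, ← mul_assoc]
        push_cast
        ring

/-- the full vertex set is resolving -/
theorem resolving_univ {V : Type} [Fintype V] (G : SimpleGraph V) : Resolving G Finset.univ := by
  intro u v h
  have := h u (Finset.mem_univ u)
  rw [SimpleGraph.edist_self] at this
  exact SimpleGraph.edist_eq_zero_iff.mp this.symm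

/-- counting: if no vertex separates `K` disjoint short pairs then a resolving set is large -/
theorem resolving_large (n K M : ℕ) (r ε : ℝ) (X : Fin n → Pl)
    (hX : X ∉ BadSep n K r ε)
    (hM : ∃ p : Fin M → Fin n × Fin n, Dj p ∧ ∀ i, dist (X (p i).1) (X (p i).2) ≤ ε)
    (S : Finset (Fin n)) (hS : Resolving (geo r X) S) : M ≤ K * S.card := by
  classical
  obtain ⟨p, hp, hd⟩ := hM
  have hex : ∀ i : Fin M, ∃ s ∈ S, (geo r X).edist s (p i).1 ≠ (geo r X).edist s (p i).2 := by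
    intro i
    by_contra hcon
    push Not at hcon
    exact hp.1 i (hS _ _ hcon)
  choose f hf hf' using hex
  have hcard := Finset.card_le_mul_card_image_of_maps_to (s := (Finset.univ : Finset (Fin M)))
    (t := S) (f := f) (fun i _ => hf i) K ?_
  · simpa using hcard
  intro s _
  by_contra hgt
  push Not at hgt
  -- the fibre has at least K + 1 elements
  set Φ := Finset.univ.filter fun i : Fin M => f i = s with hΦ
  -- at most one of them contains s
  have hrm : K ≤ (Φ.filter fun i => (p i).1 ≠ s ∧ (p i).2 ≠ s).card := by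
    have h1 : (Φ.filter fun i => ¬ ((p i).1 ≠ s ∧ (p i).2 ≠ s)).card ≤ 1 := by
      rw [Finset.card_le_one]
      intro a ha b hb
      by_contra hab
      have ha' := (Finset.mem_filter.mp ha).2
      have hb' := (Finset.mem_filter.mp hb).2
      have d1 := hp.2 a b hab
      have d2 := hp.2 b a (Ne.symm hab)
      rw [not_and_or, not_not, not_not] at ha' hb'
      rcases ha' with h | h <;> rcases hb' with h' | h'
      · exact d1.1 (h.trans h'.symm)
      · exact d1.2.1 (h.trans h'.symm)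
      · exact d2.2.1 (h'.trans h.symm)
      · exact d1.2.2 (h.trans h'.symm)
    have h2 := Finset.card_filter_add_card_filter_not (s := Φ)
      (fun i => (p i).1 ≠ s ∧ (p i).2 ≠ s)
    omega
  obtain ⟨g⟩ : Nonempty (Fin K ↪ {i // i ∈ Φ.filter fun i => (p i).1 ≠ s ∧ (p i).2 ≠ s}) := by
    rw [Function.Embedding.nonempty_iff_card_le, Fintype.card_fin, Fintype.card_coe]
    exact hrm
  apply hX
  have hg : ∀ i, f (g i).1 = s ∧ (p (g i).1).1 ≠ s ∧ (p (g i).1).2 ≠ s := by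
    intro i
    have h1 := Finset.mem_filter.mp (g i).2
    exact ⟨(Finset.mem_filter.mp h1.1).2, h1.2⟩
  refine ⟨s, fun i => p (g i).1, ⟨⟨fun i => hp.1 _, fun i j hij => ?_⟩, fun i => (hg i).2⟩,
    fun i => hd _, fun i => ?_⟩
  · exact hp.2 _ _ (fun h => hij (g.injective (Subtype.ext h)))
  · have := hf' (g i).1
    rw [(hg i).1] at this
    exact this

theorem metricDim_large (n K M : ℕ) (r ε : ℝ) (X : Fin n → Pl)
    (hX : X ∉ BadSep n K r ε)
    (hM : ∃ p : Fin M → Fin n × Fin n, Dj p ∧ ∀ i, dist (X (p i).1) (X (p i).2) ≤ ε) :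
    M ≤ K * metricDim (geo r X) := by
  obtain ⟨S, hS, hS'⟩ := Nat.sInf_mem (s := {k | ∃ S : Finset (Fin n), S.card = k ∧
    Resolving (geo r X) S}) ⟨_, Finset.univ, rfl, resolving_univ _⟩
  have := resolving_large n K M r ε X hX hM S hS'
  rw [hS] at this
  exact this

/-- the finite version with all constants -/
theorem finite_bound (n K M : ℕ) (r ε : ℝ) (hn : 2 ≤ n) (hε : 0 < ε) (hε1 : ε ≤ 1)
    (hr : 2 * ε ≤ r) (hL : 4 * r ≤ Real.sqrt n)
    (hM : (M : ℝ) ≤ n * ε ^ 2 / 144) (hq : (n : ℝ) ^ 2 * (147968 * ε ^ 3 / (r * n)) ≤ 1 / 3) :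
    law n {X | ¬ (M ≤ K * metricDim (geo r X))} ≤
      ENNReal.ofReal (n * (1 / 3) ^ K + (144 / (n * ε ^ 2) + ε ^ 2)) := by
  have hn0 : (0 : ℝ) < n := by exact_mod_cast (by omega : 0 < n)
  have hr0 : 0 < r := by linarith
  have hsub : {X | ¬ (M ≤ K * metricDim (geo r X))} ⊆ BadSep n K r ε ∪
      {X : Fin n → Pl | ¬ ∃ p : Fin M → Fin n × Fin n, Dj p ∧
        ∀ i, dist (X (p i).1) (X (p i).2) ≤ ε} := by
    intro X hX
    by_contra hcon
    rw [Set.mem_union, not_or] at hcon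
    exact hX (metricDim_large n K M r ε X hcon.1 (not_not.mp hcon.2))
  have hb1 := badSep_bound n (by omega) r ε hε hr hL K
  have hb2 := many_pairs n M hn ε hε hε1 hM
  have hq0 : 0 ≤ 147968 * ε ^ 3 / (r * n) := by positivity
  have e1 : ((n : ENNReal) * (((n : ENNReal) * n) ^ K *
      (ENNReal.ofReal (147968 * ε ^ 3 / (r * n))) ^ K)) =
      ENNReal.ofReal (n * ((n : ℝ) ^ 2 * (147968 * ε ^ 3 / (r * n))) ^ K) := by
    rw [← mul_pow, ENNReal.ofReal_mul hn0.le, ENNReal.ofReal_natCast, ENNReal.ofReal_pow (by positivity),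
      ENNReal.ofReal_mul (by positivity), ENNReal.ofReal_pow hn0.le, ENNReal.ofReal_natCast, sq]
  have e2 : (n : ℝ) * ((n : ℝ) ^ 2 * (147968 * ε ^ 3 / (r * n))) ^ K ≤ n * (1 / 3) ^ K := by
    apply mul_le_mul_of_nonneg_left _ hn0.le
    exact pow_le_pow_left₀ (by positivity) hq K
  calc law n {X | ¬ (M ≤ K * metricDim (geo r X))} ≤ law n (BadSep n K r ε ∪
      {X : Fin n → Pl | ¬ ∃ p : Fin M → Fin n × Fin n, Dj p ∧
        ∀ i, dist (X (p i).1) (X (p i).2) ≤ ε}) := measure_mono hsub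
    _ ≤ law n (BadSep n K r ε) + law n {X : Fin n → Pl | ¬ ∃ p : Fin M → Fin n × Fin n, Dj p ∧
        ∀ i, dist (X (p i).1) (X (p i).2) ≤ ε} := measure_union_le _ _
    _ ≤ ENNReal.ofReal (n * (1 / 3) ^ K) + ENNReal.ofReal (144 / (n * ε ^ 2) + ε ^ 2) := by
        refine add_le_add ?_ hb2
        exact (hb1.trans (le_of_eq e1)).trans (ENNReal.ofReal_le_ofReal e2)
    _ = ENNReal.ofReal (n * (1 / 3) ^ K + (144 / (n * ε ^ 2) + ε ^ 2)) := by
        exact (ENNReal.ofReal_add (p := n * (1 / 3) ^ K) (q := 144 / (n * ε ^ 2) + ε ^ 2)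
          (by positivity) (by positivity)).symm

end Pool.Agent.Helper42.MD
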